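import Mathlib
import Pool.Agent.V1146.TB.Haus

set_option autoImplicit false

open MeasureTheory

namespace Pool.Agent.Results.MP_e5cefd_an.TubeOccupancy

/-- In every dimension `d ≥ 2` there is a Borel set of positive and finite `(d-1)`-dimensional
Hausdorff measure satisfying the `s`-tube bound for all `s < d - 1` simultaneously. -/
theorem result (d : ℕ) (hd : 2 ≤ d) :
    ∃ K : Set (EuclideanSpace ℝ (Fin d)), MeasurableSet K ∧
      0 < Measure.hausdorffMeasure ((d : ℝ) - 1) K ∧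
      Measure.hausdorffMeasure ((d : ℝ) - 1) K < ⊤ ∧
      ∀ s : ℝ, s < (d : ℝ) - 1 → ∃ C : ℝ, ∀ (p v : EuclideanSpace ℝ (Fin d)) (w : ℝ),
        v ≠ 0 → 0 < w → (0 ≤ s ∨ w ≤ 1) →
          Measure.hausdorffMeasure ((d : ℝ) - 1)
            (K ∩ {x | Metric.infDist x {y | ∃ t : ℝ, y = p + t • v} ≤ w / 2}) ≤
            ENNReal.ofReal (C * w ^ s) := by
  obtain ⟨n, rfl⟩ : ∃ n, d = n + 1 := ⟨d - 1, by omega⟩
  have e : (((n + 1 : ℕ) : ℝ) - 1) = (n : ℝ) := by push_cast; ring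
  rw [e]
  exact Pool.Agent.V1146.TB.main n

end Pool.Agent.Results.MP_e5cefd_an.TubeOccupancy
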